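import Pool.Agent.Lib.MP_0ba956_nt.Main

namespace Pool.Agent.Results.MP_0ba956_nt.ThreeDihedral

open Pool.Agent.QD4

/-- A quaternion extension lies in a compositum of `k` dihedral extensions if and only if
`k ≥ 3` and the ground field is not exceptional. -/
theorem result (F Ω : Type*) [Field F] [Field Ω] [Algebra F Ω] [IsSepClosure F Ω]
    (h2 : (2 : F) ≠ 0) (K : IntermediateField F Ω) (hK : HasGroup (QuaternionGroup 2) K) (k : ℕ) :
    (∃ L : Fin k → IntermediateField F Ω,
      (∀ i, HasGroup (DihedralGroup 4) (L i)) ∧ K ≤ ⨆ i, L i) ↔ 3 ≤ k ∧ ¬ Exceptional F :=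
  main h2 K hK k

end Pool.Agent.Results.MP_0ba956_nt.ThreeDihedral
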